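import Pool.Agent.Helper94.Tot.Goals
import Pool.Agent.Helper90.TwinQ

/-!
# Packet BH: Brun-Hooley upper bound weights
-/

set_option autoImplicit false

open Finset

namespace Pool.Agent.Helper33.Tot

open Pool.Agent.Helper94.Tot Pool.Agent.Helper90.Twin

/-- signed sum over a family of sets -/
noncomputable def Ph (T : Finset (Finset ℕ)) (w : ℕ → ℝ) : ℝ :=
  ∑ t ∈ T, ∏ p ∈ t, (-(w p))

/-- subsets of `P` with at most `k` elements -/
def low (P : Finset ℕ) (k : ℕ) : Finset (Finset ℕ) :=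
  P.powerset.filter (fun t => t.card ≤ k)

theorem Ph_low (P : Finset ℕ) (k : ℕ) (w : ℕ → ℝ) : Ph (low P k) w = TT P w (k + 1) := by
  unfold Ph TT
  have h1 : ∀ t ∈ low P k, t.card ∈ range (k + 1) := by
    intro t ht
    have := (Finset.mem_filter.1 ht).2
    exact Finset.mem_range.2 (by omega)
  rw [← Finset.sum_fiberwise_of_maps_to h1]
  apply Finset.sum_congr rfl
  intro j hj
  have hj' : j ≤ k := by
    have := Finset.mem_range.1 hj
    omega
  unfold EE
  rw [Finset.mul_sum]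
  apply Finset.sum_congr
  · ext t
    simp only [low, Finset.mem_filter, Finset.mem_powerset, Finset.mem_powersetCard]
    constructor
    · rintro ⟨⟨h2, h3⟩, h4⟩
      exact ⟨h2, h4⟩
    · rintro ⟨h2, h4⟩
      exact ⟨⟨h2, by omega⟩, h4⟩
  · intro t ht
    have hc := (Finset.mem_powersetCard.1 ht)
    rw [Finset.prod_neg, hc.2]

/-- error factors -/
noncomputable def be (j : ℕ) : ℝ :=
  Real.exp 24 * ((12 : ℝ) ^ (2 * j + 1) / ((2 * j + 1).factorial : ℝ))

theorem be_nonneg (j : ℕ) : 0 ≤ be j := by unfold be; positivity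

/-- constants -/
noncomputable def KK (n i : ℕ) : ℝ := ∏ j ∈ range n, (1 + be (i + j))

theorem KK_ge_one (n i : ℕ) : 1 ≤ KK n i := by
  unfold KK
  calc (1 : ℝ) = ∏ j ∈ range n, (1 : ℝ) := by simp
    _ ≤ _ := Finset.prod_le_prod (fun _ _ => by norm_num) (fun j _ => by linarith [be_nonneg (i + j)])

theorem KK_mono {m n : ℕ} (h : m ≤ n) (i : ℕ) : KK m i ≤ KK n i := by
  induction n, h using Nat.le_induction with
  | base => exact le_rfl
  | succ n _ ih =>
    unfold KK
    rw [Finset.prod_range_succ]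
    have h1 : 0 ≤ KK n i := by linarith [KK_ge_one n i]
    have h2 := be_nonneg (i + n)
    have h3 : KK n i * 1 ≤ KK n i * (1 + be (i + n)) := mul_le_mul_of_nonneg_left (by linarith) h1
    unfold KK at h3 ih
    linarith

theorem KK_succ (n i : ℕ) : KK (n + 1) i = (1 + be i) * KK n (i + 1) := by
  unfold KK
  rw [Finset.prod_range_succ', mul_comm]
  congr 1
  apply Finset.prod_congr rfl
  intro j _
  congr 2
  ring

/-- the block -/
theorem block_bound {u v : ℕ} (hu : 4 ≤ u) (huv : u ≤ v) {w : ℕ → ℝ}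
    (hw : ∀ p, 0 ≤ w p ∧ w p ≤ 1 / (p : ℝ)) :
    ∑ p ∈ (Ioc (max u (Nat.sqrt v)) v).filter Nat.Prime, w p ≤ 12 := by
  refine le_trans ?_ (block_sum v (by omega))
  calc ∑ p ∈ (Ioc (max u (Nat.sqrt v)) v).filter Nat.Prime, w p
      ≤ ∑ p ∈ (Ioc (max u (Nat.sqrt v)) v).filter Nat.Prime, 1 / (p : ℝ) :=
        Finset.sum_le_sum (fun p _ => (hw p).2)
    _ ≤ _ := by
        apply Finset.sum_le_sum_of_subset_of_nonneg
        · intro p hp
          rw [Finset.mem_filter, Finset.mem_Ioc] at hp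
          rw [Finset.mem_sdiff, mem_Ps, mem_Ps]
          have h1 : u < p := lt_of_le_of_lt (le_max_left _ _) hp.1.1
          have h2 : Nat.sqrt v < p := lt_of_le_of_lt (le_max_right _ _) hp.1.1
          exact ⟨⟨by omega, hp.1.2, hp.2⟩, fun h => by omega⟩
        · intro p _ _
          positivity

theorem exp_le_one_sub {t : ℝ} (h0 : 0 ≤ t) (h1 : t ≤ 1 / 2) : Real.exp (-(2 * t)) ≤ 1 - t := by
  have h2 : Real.exp (-(2 * t)) * Real.exp (2 * t) = 1 := by
    rw [← Real.exp_add]; simp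
  have h3 : 1 + 2 * t ≤ Real.exp (2 * t) := by
    have := Real.add_one_le_exp (2 * t)
    linarith
  have h4 : 0 < Real.exp (-(2 * t)) := Real.exp_pos _
  have h5 : 0 ≤ 1 - t := by linarith
  have h6 : 1 ≤ (1 - t) * (1 + 2 * t) := by nlinarith
  have h7 : 1 ≤ (1 - t) * Real.exp (2 * t) := h6.trans (mul_le_mul_of_nonneg_left h3 h5)
  calc Real.exp (-(2 * t)) = Real.exp (-(2 * t)) * 1 := by ring
    _ ≤ Real.exp (-(2 * t)) * ((1 - t) * Real.exp (2 * t)) := mul_le_mul_of_nonneg_left h7 h4.le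
    _ = (1 - t) * (Real.exp (-(2 * t)) * Real.exp (2 * t)) := by ring
    _ = 1 - t := by rw [h2]; ring

theorem prod_ge {P : Finset ℕ} {w : ℕ → ℝ} (hw0 : ∀ p ∈ P, 0 ≤ w p) (hw1 : ∀ p ∈ P, w p ≤ 1 / 2)
    (hs : ∑ p ∈ P, w p ≤ 12) : Real.exp (-24) ≤ ∏ p ∈ P, (1 - w p) := by
  calc Real.exp (-24) ≤ Real.exp (∑ p ∈ P, (-(2 * w p))) := by
        apply Real.exp_le_exp.2
        rw [Finset.sum_neg_distrib, ← Finset.mul_sum]
        linarith
    _ = ∏ p ∈ P, Real.exp (-(2 * w p)) := Real.exp_sum _ _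
    _ ≤ _ := Finset.prod_le_prod (fun _ _ => (Real.exp_pos _).le)
        (fun p hp => exp_le_one_sub (hw0 p hp) (hw1 p hp))

theorem TT_upper {P : Finset ℕ} {w : ℕ → ℝ} (hw0 : ∀ p ∈ P, 0 ≤ w p) (hw1 : ∀ p ∈ P, w p ≤ 1 / 2)
    (hs : ∑ p ∈ P, w p ≤ 12) (i : ℕ) :
    TT P w (2 * i + 1) ≤ (1 + be i) * ∏ p ∈ P, (1 - w p) := by
  have h1 := bonferroni_abs hw0 (fun p hp => (hw1 p hp).trans (by norm_num)) (2 * i + 1)
  have h2 := EE_le hw0 (2 * i + 1)
  have h3 : (∑ p ∈ P, w p) ^ (2 * i + 1) / ((2 * i + 1).factorial : ℝ)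
      ≤ (12 : ℝ) ^ (2 * i + 1) / ((2 * i + 1).factorial : ℝ) := by
    apply div_le_div_of_nonneg_right _ (by positivity)
    exact pow_le_pow_left₀ (Finset.sum_nonneg hw0) hs _
  have h4 := prod_ge hw0 hw1 hs
  have h5 : Real.exp 24 * Real.exp (-24) = 1 := by rw [← Real.exp_add]; simp
  have h6 : (12 : ℝ) ^ (2 * i + 1) / ((2 * i + 1).factorial : ℝ) ≤ be i * ∏ p ∈ P, (1 - w p) := by
    unfold be
    have h7 : (0 : ℝ) ≤ (12 : ℝ) ^ (2 * i + 1) / ((2 * i + 1).factorial : ℝ) := by positivity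
    calc (12 : ℝ) ^ (2 * i + 1) / ((2 * i + 1).factorial : ℝ)
        = (12 : ℝ) ^ (2 * i + 1) / ((2 * i + 1).factorial : ℝ) * (Real.exp 24 * Real.exp (-24)) := by
          rw [h5, mul_one]
      _ ≤ (12 : ℝ) ^ (2 * i + 1) / ((2 * i + 1).factorial : ℝ)
            * (Real.exp 24 * ∏ p ∈ P, (1 - w p)) := by
          apply mul_le_mul_of_nonneg_left _ h7
          exact mul_le_mul_of_nonneg_left h4 (Real.exp_pos _).le
      _ = _ := by ring
  have h8 := (abs_le.1 h1).1
  have h9 : (1 + be i) * ∏ p ∈ P, (1 - w p)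
      = ∏ p ∈ P, (1 - w p) + be i * ∏ p ∈ P, (1 - w p) := by ring
  rw [h9]
  linarith

theorem TT_lower {P : Finset ℕ} {w : ℕ → ℝ} (hw0 : ∀ p ∈ P, 0 ≤ w p) (hw1 : ∀ p ∈ P, w p ≤ 1)
    (i : ℕ) : 0 ≤ TT P w (2 * i + 1) := by
  have h1 := (bonferroni hw0 hw1 (2 * i + 1)).1
  have h2 : (-1 : ℝ) ^ (2 * i + 1) = -1 := by
    rw [pow_succ, pow_mul]; norm_num
  rw [h2] at h1
  have h3 : 0 ≤ ∏ p ∈ P, (1 - w p) := Finset.prod_nonneg (fun p hp => by linarith [hw1 p hp])
  linarith

/-- union of families with separated supports -/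
theorem Ph_union {T' T'' : Finset (Finset ℕ)} {m : ℕ} (h' : ∀ t ∈ T', ∀ p ∈ t, p ≤ m)
    (h'' : ∀ t ∈ T'', ∀ p ∈ t, m < p) (w : ℕ → ℝ) :
    Ph ((T' ×ˢ T'').image (fun x => x.1 ∪ x.2)) w = Ph T' w * Ph T'' w := by
  have hdis : ∀ x ∈ T' ×ˢ T'', Disjoint x.1 x.2 := by
    intro x hx
    rw [Finset.mem_product] at hx
    rw [Finset.disjoint_left]
    intro p hp hp'
    have h1 := h' _ hx.1 p hp
    have h2 := h'' _ hx.2 p hp'
    omega
  have hl : ∀ x ∈ T' ×ˢ T'', (x.1 ∪ x.2).filter (fun p => p ≤ m) = x.1 := by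
    intro x hx
    rw [Finset.mem_product] at hx
    ext p
    rw [Finset.mem_filter, Finset.mem_union]
    constructor
    · rintro ⟨h1 | h1, h2⟩
      · exact h1
      · have := h'' _ hx.2 p h1
        omega
    · intro h1
      exact ⟨Or.inl h1, h' _ hx.1 p h1⟩
  have hr : ∀ x ∈ T' ×ˢ T'', (x.1 ∪ x.2).filter (fun p => m < p) = x.2 := by
    intro x hx
    rw [Finset.mem_product] at hx
    ext p
    rw [Finset.mem_filter, Finset.mem_union]
    constructor
    · rintro ⟨h1 | h1, h2⟩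
      · have := h' _ hx.1 p h1
        omega
      · exact h1
    · intro h1
      exact ⟨Or.inr h1, h'' _ hx.2 p h1⟩
  unfold Ph
  rw [Finset.sum_image]
  · rw [Finset.sum_mul_sum, ← Finset.sum_product']
    apply Finset.sum_congr rfl
    intro x hx
    exact Finset.prod_union (hdis x hx)
  · intro x hx y hy hxy
    have e1 : x.1 = y.1 := by rw [← hl x hx, ← hl y hy]; simp only at hxy; rw [hxy]
    have e2 : x.2 = y.2 := by rw [← hr x hx, ← hr y hy]; simp only at hxy; rw [hxy]
    exact Prod.ext e1 e2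

theorem family {u : ℕ} (hu : 4 ≤ u) : ∀ v : ℕ, 1 ≤ v → ∀ i : ℕ, ∃ T : Finset (Finset ℕ),
    ∅ ∈ T ∧ (∀ t ∈ T, (∀ p ∈ t, p.Prime ∧ u < p ∧ p ≤ v) ∧ ∏ p ∈ t, p ≤ v ^ (4 * i + 4)) ∧
    (∀ w : ℕ → ℝ, (∀ p, 0 ≤ w p ∧ w p ≤ 1) → 0 ≤ Ph T w) ∧
    (∀ w : ℕ → ℝ, (∀ p, 0 ≤ w p ∧ w p ≤ 1 / (p : ℝ)) →
      Ph T w ≤ KK v i * ∏ p ∈ (Ioc u v).filter Nat.Prime, (1 - w p)) := by
  intro v
  induction v using Nat.strong_induction_on with
  | _ v ih =>
  intro hv i
  by_cases huv : v ≤ u
  · refine ⟨{∅}, by simp, ?_, ?_, ?_⟩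
    · intro t ht
      rw [Finset.mem_singleton] at ht
      subst ht
      refine ⟨by simp, ?_⟩
      simp only [Finset.prod_empty]
      exact Nat.one_le_pow _ _ hv
    · intro w _
      simp [Ph]
    · intro w _
      have h1 : (Ioc u v) = ∅ := Finset.Ioc_eq_empty (by omega)
      rw [h1]
      simp only [Ph, Finset.sum_singleton, Finset.prod_empty, Finset.filter_empty, mul_one]
      exact KK_ge_one v i
  · have huv' : u < v := by omega
    have hs1 : 1 ≤ Nat.sqrt v := Nat.sqrt_pos.2 (by omega)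
    have hs2 : Nat.sqrt v < v := Nat.sqrt_lt_self (by omega)
    obtain ⟨T', he, hT, hpos, hup⟩ := ih (Nat.sqrt v) hs2 hs1 (i + 1)
    set P := (Ioc (max u (Nat.sqrt v)) v).filter Nat.Prime with hP
    have hlow : ∀ t ∈ low P (2 * i), ∀ p ∈ t, p ∈ P := by
      intro t ht p hp
      exact (Finset.mem_powerset.1 (Finset.mem_filter.1 ht).1) hp
    have hPm : ∀ p ∈ P, p.Prime ∧ u < p ∧ Nat.sqrt v < p ∧ p ≤ v := by
      intro p hp
      rw [hP, Finset.mem_filter, Finset.mem_Ioc] at hp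
      exact ⟨hp.2, lt_of_le_of_lt (le_max_left _ _) hp.1.1,
        lt_of_le_of_lt (le_max_right _ _) hp.1.1, hp.1.2⟩
    have h' : ∀ t ∈ T', ∀ p ∈ t, p ≤ Nat.sqrt v := fun t ht p hp => ((hT t ht).1 p hp).2.2
    have h'' : ∀ t ∈ low P (2 * i), ∀ p ∈ t, Nat.sqrt v < p :=
      fun t ht p hp => (hPm p (hlow t ht p hp)).2.2.1
    refine ⟨(T' ×ˢ low P (2 * i)).image (fun x => x.1 ∪ x.2), ?_, ?_, ?_, ?_⟩
    · rw [Finset.mem_image]
      refine ⟨(∅, ∅), ?_, by simp⟩
      rw [Finset.mem_product]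
      exact ⟨he, by simp [low]⟩
    · intro t ht
      rw [Finset.mem_image] at ht
      obtain ⟨⟨t', t''⟩, hx, rfl⟩ := ht
      rw [Finset.mem_product] at hx
      simp only at hx ⊢
      constructor
      · intro p hp
        rw [Finset.mem_union] at hp
        rcases hp with hp | hp
        · have := (hT t' hx.1).1 p hp
          exact ⟨this.1, this.2.1, by omega⟩
        · have := hPm p (hlow t'' hx.2 p hp)
          exact ⟨this.1, this.2.1, this.2.2.2⟩
      · have hdis : Disjoint t' t'' := by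
          rw [Finset.disjoint_left]
          intro p hp hp'
          have h1 := h' _ hx.1 p hp
          have h2 := h'' _ hx.2 p hp'
          omega
        rw [Finset.prod_union hdis]
        have h1 := (hT t' hx.1).2
        have h2 : ∏ p ∈ t'', p ≤ v ^ (2 * i) := by
          calc ∏ p ∈ t'', p ≤ ∏ _p ∈ t'', v :=
                Finset.prod_le_prod' (fun p hp => (hPm p (hlow t'' hx.2 p hp)).2.2.2)
            _ = v ^ t''.card := by simp
            _ ≤ v ^ (2 * i) := Nat.pow_le_pow_right hv (Finset.mem_filter.1 hx.2).2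
        calc (∏ p ∈ t', p) * ∏ p ∈ t'', p
            ≤ (Nat.sqrt v) ^ (4 * (i + 1) + 4) * v ^ (2 * i) := Nat.mul_le_mul h1 h2
          _ = ((Nat.sqrt v) ^ 2) ^ (2 * i + 4) * v ^ (2 * i) := by
              rw [← pow_mul]; congr 2; ring
          _ ≤ v ^ (2 * i + 4) * v ^ (2 * i) :=
              Nat.mul_le_mul_right _ (Nat.pow_le_pow_left (Nat.sqrt_le' v) _)
          _ = v ^ (4 * i + 4) := by rw [← pow_add]; congr 1; ring
    · intro w hw
      rw [Ph_union h' h'' w, Ph_low]
      exact mul_nonneg (hpos w hw) (TT_lower (fun p _ => (hw p).1) (fun p _ => (hw p).2) i)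
    · intro w hw
      rw [Ph_union h' h'' w, Ph_low]
      have hw1 : ∀ p ∈ P, w p ≤ 1 / 2 := by
        intro p hp
        have h1 := (hPm p hp).1.two_le
        refine (hw p).2.trans ?_
        apply div_le_div_of_nonneg_left (by norm_num) (by norm_num)
        exact_mod_cast h1
      have h1 := hup w hw
      have h2 := TT_upper (fun p _ => (hw p).1) hw1 (block_bound hu huv'.le hw) i
      have h3 := TT_lower (P := P) (w := w) (fun p _ => (hw p).1)
        (fun p hp => (hw1 p hp).trans (by norm_num)) i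
      have h4 : (Ioc u v).filter Nat.Prime = (Ioc u (Nat.sqrt v)).filter Nat.Prime ∪ P := by
        ext p
        rw [Finset.mem_union, hP, Finset.mem_filter, Finset.mem_filter, Finset.mem_filter,
          Finset.mem_Ioc, Finset.mem_Ioc, Finset.mem_Ioc, max_lt_iff]
        constructor
        · rintro ⟨⟨a1, a2⟩, a3⟩
          by_cases h : p ≤ Nat.sqrt v
          · exact Or.inl ⟨⟨a1, h⟩, a3⟩
          · exact Or.inr ⟨⟨⟨a1, by omega⟩, a2⟩, a3⟩
        · rintro (⟨⟨a1, a2⟩, a3⟩ | ⟨⟨⟨a1, a2⟩, a3⟩, a4⟩)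
          · exact ⟨⟨a1, by omega⟩, a3⟩
          · exact ⟨⟨a1, a3⟩, a4⟩
      have h5 : Disjoint ((Ioc u (Nat.sqrt v)).filter Nat.Prime) P := by
        rw [Finset.disjoint_left]
        intro p hp hp'
        have a1 := (Finset.mem_Ioc.1 (Finset.mem_filter.1 hp).1).2
        have a2 := (hPm p hp').2.2.1
        omega
      rw [h4, Finset.prod_union h5]
      have h6 : 0 ≤ ∏ p ∈ (Ioc u (Nat.sqrt v)).filter Nat.Prime, (1 - w p) := by
        apply Finset.prod_nonneg
        intro p hp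
        have a1 : (1 : ℝ) ≤ (p : ℝ) := by
          exact_mod_cast (Finset.mem_filter.1 hp).2.one_le
        have a2 : 1 / (p : ℝ) ≤ 1 := by
          rw [div_le_one (by linarith)]
          exact a1
        linarith [(hw p).2]
      have h7 : 0 ≤ ∏ p ∈ P, (1 - w p) :=
        Finset.prod_nonneg (fun p hp => by linarith [hw1 p hp])
      have h8 : KK (Nat.sqrt v) (i + 1) * (1 + be i) ≤ KK v i := by
        calc KK (Nat.sqrt v) (i + 1) * (1 + be i) = KK (Nat.sqrt v + 1) i := by
              rw [KK_succ, mul_comm]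
          _ ≤ KK v i := KK_mono hs2 i
      have h9 : 0 ≤ KK (Nat.sqrt v) (i + 1) := by linarith [KK_ge_one (Nat.sqrt v) (i + 1)]
      calc Ph T' w * TT P w (2 * i + 1)
          ≤ (KK (Nat.sqrt v) (i + 1) * ∏ p ∈ (Ioc u (Nat.sqrt v)).filter Nat.Prime, (1 - w p))
            * TT P w (2 * i + 1) := mul_le_mul_of_nonneg_right h1 h3
        _ ≤ (KK (Nat.sqrt v) (i + 1) * ∏ p ∈ (Ioc u (Nat.sqrt v)).filter Nat.Prime, (1 - w p))
            * ((1 + be i) * ∏ p ∈ P, (1 - w p)) :=
            mul_le_mul_of_nonneg_left h2 (mul_nonneg h9 h6)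
        _ = (KK (Nat.sqrt v) (i + 1) * (1 + be i)) *
            ((∏ p ∈ (Ioc u (Nat.sqrt v)).filter Nat.Prime, (1 - w p)) * ∏ p ∈ P, (1 - w p)) := by
            ring
        _ ≤ KK v i *
            ((∏ p ∈ (Ioc u (Nat.sqrt v)).filter Nat.Prime, (1 - w p)) * ∏ p ∈ P, (1 - w p)) :=
            mul_le_mul_of_nonneg_right h8 (mul_nonneg h6 h7)

theorem KK_le (n : ℕ) : KK n 0 ≤ Real.exp (Real.exp 24 * Real.exp 12) := by
  unfold KK
  calc ∏ j ∈ range n, (1 + be (0 + j)) ≤ ∏ j ∈ range n, Real.exp (be (0 + j)) :=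
        Finset.prod_le_prod (fun j _ => by linarith [be_nonneg (0 + j)])
          (fun j _ => by linarith [Real.add_one_le_exp (be (0 + j))])
    _ = Real.exp (∑ j ∈ range n, be (0 + j)) := (Real.exp_sum _ _).symm
    _ ≤ _ := by
        apply Real.exp_le_exp.2
        have h1 : ∑ j ∈ range n, be (0 + j)
            = Real.exp 24 * ∑ j ∈ range n, (12 : ℝ) ^ (2 * j + 1) / ((2 * j + 1).factorial : ℝ) := by
          rw [Finset.mul_sum]
          apply Finset.sum_congr rfl
          intro j _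
          simp only [be, zero_add]
        rw [h1]
        apply mul_le_mul_of_nonneg_left _ (Real.exp_pos _).le
        refine le_trans ?_ (Real.sum_le_exp_of_nonneg (x := 12) (by norm_num) (2 * n + 1))
        have h2 : ∑ j ∈ range n, (12 : ℝ) ^ (2 * j + 1) / ((2 * j + 1).factorial : ℝ)
            = ∑ j ∈ (range n).image (fun j => 2 * j + 1), (12 : ℝ) ^ j / (j.factorial : ℝ) := by
          rw [Finset.sum_image]
          intro a _ b _ hab
          simp only at hab
          omega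
        rw [h2]
        apply Finset.sum_le_sum_of_subset_of_nonneg
        · intro j hj
          rw [Finset.mem_image] at hj
          obtain ⟨a, ha, rfl⟩ := hj
          rw [Finset.mem_range] at ha ⊢
          omega
        · intro j _ _
          positivity

theorem pf_BH : StmtBH := by
  refine ⟨4, Real.exp (Real.exp 24 * Real.exp 12), Real.exp_pos _, ?_⟩
  intro u v hu huv
  obtain ⟨T, he, hT, hpos, hup⟩ := family hu v (by omega) 0
  have hpr : ∀ t ∈ T, ∀ p ∈ t, p.Prime := fun t ht p hp => ((hT t ht).1 p hp).1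
  have hinj : Set.InjOn (fun t : Finset ℕ => ∏ p ∈ t, p) (T : Set (Finset ℕ)) := by
    intro s hs t ht hst
    have h1 := Nat.primeFactors_prod (hpr s hs)
    have h2 := Nat.primeFactors_prod (hpr t ht)
    simp only at hst
    rw [← h1, ← h2, hst]
  have hmu : ∀ t ∈ T, (ArithmeticFunction.moebius (∏ p ∈ t, p) : ℝ) = ∏ p ∈ t, (-1 : ℝ) := by
    intro t ht
    rw [ArithmeticFunction.isMultiplicative_moebius.map_prod_of_prime t (hpr t ht)]
    push_cast
    apply Finset.prod_congr rfl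
    intro p hp
    rw [ArithmeticFunction.moebius_apply_prime (hpr t ht p hp)]
    norm_num
  have hsqf : ∀ t ∈ T, Squarefree (∏ p ∈ t, p) := by
    intro t ht
    have h1 : ArithmeticFunction.moebius (∏ p ∈ t, p) ≠ 0 := by
      intro h0
      have h2 := hmu t ht
      rw [h0] at h2
      have h3 : (∏ p ∈ t, (-1 : ℝ)) ≠ 0 := Finset.prod_ne_zero_iff.2 (fun _ _ => by norm_num)
      apply h3
      rw [← h2]
      simp
    exact ArithmeticFunction.moebius_ne_zero_iff_squarefree.1 h1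
  refine ⟨T.image (fun t => ∏ p ∈ t, p), ?_, ?_, ?_, ?_⟩
  · rw [Finset.mem_image]
    exact ⟨∅, he, by simp⟩
  · intro d hd
    rw [Finset.mem_image] at hd
    obtain ⟨t, ht, rfl⟩ := hd
    refine ⟨hsqf t ht, (hT t ht).2, ?_⟩
    intro p hp hpd
    have h1 : p ∈ (∏ p ∈ t, p).primeFactors := by
      rw [Nat.mem_primeFactors]
      exact ⟨hp, hpd, (hsqf t ht).ne_zero⟩
    rw [Nat.primeFactors_prod (hpr t ht)] at h1
    exact ((hT t ht).1 p h1).2
  · intro n _
    have h1 : SS (T.image (fun t => ∏ p ∈ t, p)) n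
        = Ph T (fun p => if p ∣ n then 1 else 0) := by
      unfold SS Ph
      rw [Finset.sum_filter, Finset.sum_image hinj]
      apply Finset.sum_congr rfl
      intro t ht
      by_cases h : (∏ p ∈ t, p) ∣ n
      · rw [if_pos h, hmu t ht]
        apply Finset.prod_congr rfl
        intro p hp
        show (-1 : ℝ) = -(if p ∣ n then 1 else 0)
        rw [if_pos ((Finset.dvd_prod_of_mem (fun p => p) hp).trans h)]
      · rw [if_neg h]
        have h2 : ∃ p ∈ t, ¬ p ∣ n := by
          by_contra hcon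
          push Not at hcon
          exact h (Finset.prod_primes_dvd n (fun p hp => (hpr t ht p hp).prime) hcon)
        obtain ⟨p, hp, hpn⟩ := h2
        symm
        apply Finset.prod_eq_zero hp
        show -(if p ∣ n then (1 : ℝ) else 0) = 0
        rw [if_neg hpn]
        norm_num
    rw [h1]
    apply hpos
    intro p
    split_ifs <;> norm_num
  · intro a _
    have h1 : Pool.Agent.Helper94.Tot.sg (T.image (fun t => ∏ p ∈ t, p)) a
        = Ph T (fun p => if p ∣ a then 0 else 1 / (p : ℝ)) := by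
      unfold Pool.Agent.Helper94.Tot.sg Ph
      rw [Finset.sum_filter, Finset.sum_image hinj]
      apply Finset.sum_congr rfl
      intro t ht
      by_cases h : Nat.Coprime (∏ p ∈ t, p) a
      · rw [if_pos h, hmu t ht]
        push_cast
        rw [← Finset.prod_div_distrib]
        apply Finset.prod_congr rfl
        intro p hp
        have h2 : ¬ p ∣ a := by
          have h3 := Nat.Coprime.coprime_dvd_left (Finset.dvd_prod_of_mem (fun p => p) hp) h
          exact ((hpr t ht p hp).coprime_iff_not_dvd).1 h3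
        show (-1 : ℝ) / p = -(if p ∣ a then (0 : ℝ) else 1 / (p : ℝ))
        rw [if_neg h2]
        ring
      · rw [if_neg h]
        have h2 : ∃ p ∈ t, p ∣ a := by
          by_contra hcon
          push Not at hcon
          apply h
          apply Nat.Coprime.prod_left
          intro p hp
          exact ((hpr t ht p hp).coprime_iff_not_dvd).2 (hcon p hp)
        obtain ⟨p, hp, hpa⟩ := h2
        symm
        apply Finset.prod_eq_zero hp
        show -(if p ∣ a then (0 : ℝ) else 1 / (p : ℝ)) = 0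
        rw [if_pos hpa]
        norm_num
    rw [h1]
    have h2 := hup (fun p => if p ∣ a then 0 else 1 / (p : ℝ)) (by
      intro p
      split_ifs
      · exact ⟨le_rfl, by positivity⟩
      · exact ⟨by positivity, le_rfl⟩)
    refine h2.trans ?_
    have h3 : ∏ p ∈ (Ioc u v).filter Nat.Prime, (1 - (if p ∣ a then 0 else 1 / (p : ℝ)))
        = ∏ p ∈ (Ioc u v).filter (fun p => p.Prime ∧ ¬ p ∣ a), (1 - 1 / (p : ℝ)) := by
      rw [← Finset.filter_filter, Finset.prod_filter (fun p => ¬ p ∣ a)]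
      apply Finset.prod_congr rfl
      intro p _
      by_cases h : p ∣ a
      · simp [h]
      · simp [h]
    rw [h3]
    apply mul_le_mul_of_nonneg_right (KK_le v)
    apply Finset.prod_nonneg
    intro p hp
    have a1 : (1 : ℝ) ≤ (p : ℝ) := by
      exact_mod_cast (Finset.mem_filter.1 hp).2.1.one_le
    have a2 : 1 / (p : ℝ) ≤ 1 := by
      rw [div_le_one (by linarith)]
      exact a1
    linarith

end Pool.Agent.Helper33.Tot
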